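import Mathlib

set_option autoImplicit false

/-!
Let `φ` be a proper 3-colouring of a finite graph and orient every edge `u v` from `u` to `v` if
`φ v = φ u + 1` (modulo 3). If every strongly connected component with at least two vertices has at most
half of its vertices in every colour, then there is a proper 3-colouring with classes of size at most
`n / 2`.
-/

namespace Pool.Agent.H32.BE

open Finset

variable {V : Type}

/-- the orientation of the edges given by a 3-colouring: from colour `i` to colour `i + 1` -/
def Up (G : SimpleGraph V) (φ : V → Fin 3) (u v : V) : Prop := G.Adj u v ∧ φ v = φ u + 1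

/-- there is a directed path from `u` to `v` -/
def Reach (G : SimpleGraph V) (φ : V → Fin 3) (u v : V) : Prop :=
  Relation.ReflTransGen (Up G φ) u v

open Classical in
/-- lower the colours of the vertices of `S` by one -/
noncomputable def sh (φ : V → Fin 3) (S : Finset V) (v : V) : Fin 3 := if v ∈ S then φ v - 1 else φ v

theorem sh_proper (G : SimpleGraph V) (φ : V → Fin 3) (hφ : ∀ u v, G.Adj u v → φ u ≠ φ v)
    (S : Finset V) (hS : ∀ u v, Up G φ u v → v ∈ S → u ∈ S) :
    ∀ u v, G.Adj u v → sh φ S u ≠ sh φ S v := by
  intro u v huv h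
  unfold sh at h
  by_cases hu : u ∈ S <;> by_cases hv : v ∈ S
  · rw [if_pos hu, if_pos hv] at h
    exact hφ u v huv (sub_left_injective h)
  · rw [if_pos hu, if_neg hv] at h
    exact hv (hS v u ⟨huv.symm, by rw [← h, sub_add_cancel]⟩ hu)
  · rw [if_neg hu, if_pos hv] at h
    exact hu (hS u v ⟨huv, by rw [h, sub_add_cancel]⟩ hv)
  · rw [if_neg hu, if_neg hv] at h
    exact hφ u v huv h

/-- the number of vertices of `A` with `φ v = i` -/
noncomputable def cn (φ : V → Fin 3) (A : Finset V) (i : Fin 3) : ℕ :=
  (A.filter (fun v => φ v = i)).card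

theorem cn_sum (φ : V → Fin 3) (A : Finset V) (i : Fin 3) :
    cn φ A i + cn φ A (i + 1) + cn φ A (i + 2) = A.card := by
  classical
  have h := Finset.card_eq_sum_card_fiberwise (f := φ) (s := A) (t := univ)
    (fun _ _ => Finset.mem_coe.2 (mem_univ _))
  rw [h, Fin.sum_univ_three]
  unfold cn
  fin_cases i
  · rfl
  · change _ + _ + _ = _
    have e1 : ((1 : Fin 3) + 1) = 2 := rfl
    have e2 : ((1 : Fin 3) + 2) = 0 := rfl
    simp only [Fin.mk_one, e1, e2]
    omega
  · have e1 : ((2 : Fin 3) + 1) = 0 := rfl
    have e2 : ((2 : Fin 3) + 2) = 1 := rfl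
    have e3 : (⟨2, by omega⟩ : Fin 3) = 2 := rfl
    simp only [e3, e1, e2]
    omega

theorem cn_union (φ : V → Fin 3) [DecidableEq V] (A B : Finset V) (h : Disjoint A B) (i : Fin 3) :
    cn φ (A ∪ B) i = cn φ A i + cn φ B i := by
  unfold cn
  rw [Finset.filter_union, Finset.card_union_of_disjoint]
  exact Finset.disjoint_filter_filter h

theorem cn_sh_in (φ : V → Fin 3) (S A : Finset V) (h : A ⊆ S) (i : Fin 3) :
    cn (sh φ S) A i = cn φ A (i + 1) := by
  unfold cn
  congr 1
  refine Finset.filter_congr fun v hv => ?_
  unfold sh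
  rw [if_pos (h hv)]
  constructor
  · intro h1
    rw [← h1, sub_add_cancel]
  · intro h1
    rw [h1, add_sub_cancel_right]

theorem cn_sh_out (φ : V → Fin 3) (S A : Finset V) (h : Disjoint A S) (i : Fin 3) :
    cn (sh φ S) A i = cn φ A i := by
  unfold cn
  congr 1
  refine Finset.filter_congr fun v hv => ?_
  unfold sh
  rw [if_neg (Finset.disjoint_left.1 h hv)]

theorem reach_closed (G : SimpleGraph V) (φ : V → Fin 3) (S : Finset V)
    (hS : ∀ u v, Up G φ u v → v ∈ S → u ∈ S) : ∀ u v, Reach G φ u v → v ∈ S → u ∈ S := by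
  intro u v h
  induction h using Relation.ReflTransGen.head_induction_on with
  | refl => exact id
  | head h1 _ ih => exact fun hv => hS _ _ h1 (ih hv)

/-- a source component of the complement of a closed set -/
theorem exists_source [Fintype V] (G : SimpleGraph V) (φ : V → Fin 3) (S : Finset V)
    (hne : ∃ v, v ∉ S) :
    ∃ v, v ∉ S ∧ ∀ u, u ∉ S → Reach G φ u v → Reach G φ v u := by
  classical
  obtain ⟨x, hx⟩ := hne
  obtain ⟨v, hv, hmin⟩ := Finset.exists_min_image (univ.filter (fun v => v ∉ S))
    (fun v => (univ.filter (fun u => u ∉ S ∧ Reach G φ u v)).card)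
    ⟨x, by simpa using hx⟩
  refine ⟨v, by simpa using hv, fun u hu huv => ?_⟩
  have h1 := hmin u (by simpa using hu)
  have hsub : univ.filter (fun w => w ∉ S ∧ Reach G φ w u) ⊆
      univ.filter (fun w => w ∉ S ∧ Reach G φ w v) := by
    intro w hw
    rw [Finset.mem_filter] at hw ⊢
    exact ⟨hw.1, hw.2.1, hw.2.2.trans huv⟩
  have h2 := Finset.eq_of_subset_of_card_le hsub h1
  have h3 : v ∈ univ.filter (fun w => w ∉ S ∧ Reach G φ w v) := by
    rw [Finset.mem_filter]
    exact ⟨mem_univ _, by simpa using hv, Relation.ReflTransGen.refl⟩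
  rw [← h2, Finset.mem_filter] at h3
  exact h3.2.2

/-- The main theorem, with counting in finite sets. -/
theorem raise [Fintype V] (G : SimpleGraph V) (hn : 2 ≤ Fintype.card V)
    (φ : V → Fin 3) (hφ : ∀ u v, G.Adj u v → φ u ≠ φ v)
    (hK : ∀ v : V, ∀ K : Finset V, (∀ u, u ∈ K ↔ (Reach G φ u v ∧ Reach G φ v u)) →
      (K.card = 1 ∨ ∀ i, 2 * cn φ K i ≤ K.card)) :
    ∃ c : V → Fin 3, (∀ u v, G.Adj u v → c u ≠ c v) ∧ ∀ i, 2 * cn c univ i ≤ Fintype.card V := by
  classical
  by_cases hgood : ∀ i, 2 * cn φ univ i ≤ Fintype.card V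
  · exact ⟨φ, hφ, hgood⟩
  push Not at hgood
  obtain ⟨i, hi⟩ := hgood
  obtain ⟨S, hS, hmax⟩ := Finset.exists_max_image
    ((univ : Finset (Finset V)).filter (fun S =>
      (∀ u v, Up G φ u v → v ∈ S → u ∈ S) ∧ Fintype.card V < 2 * cn (sh φ S) univ i))
    (fun S => S.card) ⟨∅, by
      rw [Finset.mem_filter]
      refine ⟨mem_univ _, fun u v _ h => absurd h (Finset.notMem_empty v), ?_⟩
      rw [cn_sh_out φ ∅ univ (Finset.disjoint_empty_right _)]
      exact hi⟩
  rw [Finset.mem_filter] at hS
  obtain ⟨_, hcl, hbig⟩ := hS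
  have hsumφ := cn_sum φ univ i
  rw [Finset.card_univ] at hsumφ
  have hne : ∃ v, v ∉ S := by
    by_contra hcon
    push Not at hcon
    have hSu : S = univ := Finset.eq_univ_of_forall hcon
    subst hSu
    rw [cn_sh_in φ univ univ (Finset.Subset.refl _)] at hbig
    omega
  obtain ⟨v, hv, hsrc⟩ := exists_source G φ S hne
  set K : Finset V := univ.filter (fun u => Reach G φ u v ∧ Reach G φ v u) with hKdef
  have hmemK : ∀ u, u ∈ K ↔ (Reach G φ u v ∧ Reach G φ v u) := fun u => by
    rw [hKdef, Finset.mem_filter]
    simp
  have hvK : v ∈ K := (hmemK v).2 ⟨Relation.ReflTransGen.refl, Relation.ReflTransGen.refl⟩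
  have hSK : Disjoint S K := by
    rw [Finset.disjoint_left]
    intro u hu huK
    exact hv (reach_closed G φ S hcl v u ((hmemK u).1 huK).2 hu)
  set Q : Finset V := univ \ (S ∪ K) with hQdef
  have hQd : Disjoint (S ∪ K) Q := Finset.disjoint_sdiff
  have hU : (univ : Finset V) = (S ∪ K) ∪ Q := by
    rw [hQdef, Finset.union_sdiff_of_subset (Finset.subset_univ _)]
  have hcl' : ∀ u w, Up G φ u w → w ∈ S ∪ K → u ∈ S ∪ K := by
    intro u w huw hw
    rw [Finset.mem_union] at hw ⊢
    rcases hw with hw | hw
    · exact Or.inl (hcl u w huw hw)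
    · by_cases hu : u ∈ S
      · exact Or.inl hu
      · have h1 : Reach G φ u v := Relation.ReflTransGen.head huw ((hmemK w).1 hw).1
        exact Or.inr ((hmemK u).2 ⟨h1, hsrc u hu h1⟩)
  have hsmall : 2 * cn (sh φ (S ∪ K)) univ i ≤ Fintype.card V := by
    by_contra hcon
    have h1 := hmax (S ∪ K) (by
      rw [Finset.mem_filter]
      exact ⟨mem_univ _, hcl', by omega⟩)
    rw [Finset.card_union_of_disjoint hSK] at h1
    have h2 : 0 < K.card := Finset.card_pos.2 ⟨v, hvK⟩
    omega
  -- the counts
  have c1 : ∀ j, cn (sh φ S) univ j = cn φ S (j + 1) + cn φ K j + cn φ Q j := by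
    intro j
    rw [hU, cn_union _ _ _ hQd, cn_union _ _ _ hSK, cn_sh_in φ S S (Finset.Subset.refl _),
      cn_sh_out φ S K hSK.symm, cn_sh_out φ S Q]
    exact (Finset.disjoint_of_subset_left Finset.subset_union_left hQd).symm
  have c2 : ∀ j, cn (sh φ (S ∪ K)) univ j = cn φ S (j + 1) + cn φ K (j + 1) + cn φ Q j := by
    intro j
    rw [hU, cn_union _ _ _ hQd, cn_union _ _ _ hSK, cn_sh_in φ _ S Finset.subset_union_left,
      cn_sh_in φ _ K Finset.subset_union_right, cn_sh_out φ _ Q hQd.symm]
  have sS := cn_sum φ S i
  have sK := cn_sum φ K i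
  have sQ := cn_sum φ Q i
  have sn : S.card + K.card + Q.card = Fintype.card V := by
    rw [← Finset.card_union_of_disjoint hSK, ← Finset.card_union_of_disjoint hQd, ← hU,
      Finset.card_univ]
  have b0 := c1 i
  have a0 := c2 i
  have a1 := c2 (i + 1)
  have a2 := c2 (i + 2)
  have e2 : i + 1 + 1 = i + 2 := by rw [add_assoc]; rfl
  have e3 : i + 2 + 1 = i := by
    rw [add_assoc]
    exact add_zero i
  rw [e2] at a1
  rw [e3] at a2
  have hall : ∀ j : Fin 3, j = i ∨ j = i + 1 ∨ j = i + 2 := by
    intro j
    revert i
    intro i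
    intros
    clear * -
    revert i j
    decide
  have good1 : 2 * cn (sh φ (S ∪ K)) univ (i + 1) ≤ Fintype.card V := by omega
  by_cases good2 : 2 * cn (sh φ (S ∪ K)) univ (i + 2) ≤ Fintype.card V
  · refine ⟨sh φ (S ∪ K), sh_proper G φ hφ _ hcl', fun j => ?_⟩
    rcases hall j with rfl | rfl | rfl
    · exact hsmall
    · exact good1
    · exact good2
  · rcases hK v K hmemK with hK1 | hK2
    · -- one vertex was moved and the class `i + 1` is empty
      have h0 : cn (sh φ (S ∪ K)) univ (i + 1) = 0 := by omega
      have h00 : ∀ u, sh φ (S ∪ K) u ≠ i + 1 := by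
        intro u hu
        unfold cn at h0
        rw [Finset.card_eq_zero, Finset.filter_eq_empty_iff] at h0
        exact h0 (mem_univ u) hu
      have hpos : 0 < cn (sh φ (S ∪ K)) univ (i + 2) := by omega
      obtain ⟨x, hx⟩ := Finset.card_pos.1 hpos
      rw [Finset.mem_filter] at hx
      have hx2 := hx.2
      have n01 : ∀ i : Fin 3, i ≠ i + 1 := by decide
      have n21 : ∀ i : Fin 3, i + 2 ≠ i + 1 := by decide
      have n02 : ∀ i : Fin 3, i ≠ i + 2 := by decide
      have cu : ∀ j, cn (Function.update (sh φ (S ∪ K)) x (i + 1)) univ j =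
          if j = i + 1 then 1 else if j = i + 2 then cn (sh φ (S ∪ K)) univ (i + 2) - 1
          else cn (sh φ (S ∪ K)) univ j := by
        intro j
        unfold cn
        split_ifs with hj1 hj2
        · subst hj1
          rw [Finset.card_eq_one]
          refine ⟨x, ?_⟩
          ext u
          rw [Finset.mem_filter, Finset.mem_singleton]
          constructor
          · rintro ⟨_, h⟩
            by_contra hux
            rw [Function.update_of_ne hux] at h
            exact h00 u h
          · rintro rfl
            exact ⟨mem_univ _, Function.update_self _ _ _⟩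
        · subst hj2
          rw [← Finset.card_erase_of_mem (s := univ.filter (fun v => sh φ (S ∪ K) v = i + 2))
            (a := x) (by rw [Finset.mem_filter]; exact ⟨mem_univ _, hx2⟩)]
          congr 1
          ext u
          rw [Finset.mem_filter, Finset.mem_erase, Finset.mem_filter]
          constructor
          · rintro ⟨_, h⟩
            have hux : u ≠ x := by
              rintro rfl
              rw [Function.update_self] at h
              exact hj1 h.symm
            rw [Function.update_of_ne hux] at h
            exact ⟨hux, mem_univ _, h⟩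
          · rintro ⟨hux, _, h⟩
            rw [Function.update_of_ne hux]
            exact ⟨mem_univ _, h⟩
        · congr 1
          ext u
          rw [Finset.mem_filter, Finset.mem_filter]
          by_cases hux : u = x
          · subst hux
            rw [Function.update_self, hx2]
            constructor
            · rintro ⟨_, h⟩
              exact absurd h.symm hj1
            · rintro ⟨_, h⟩
              exact absurd h.symm hj2
          · rw [Function.update_of_ne hux]
      refine ⟨Function.update (sh φ (S ∪ K)) x (i + 1), ?_, fun j => ?_⟩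
      · intro u w huw
        have hp := sh_proper G φ hφ _ hcl'
        by_cases hux : u = x
        · subst hux
          have hwu : w ≠ u := huw.ne'
          rw [Function.update_self, Function.update_of_ne hwu]
          exact (h00 w).symm
        · by_cases hwx : w = x
          · subst hwx
            rw [Function.update_self, Function.update_of_ne hux]
            exact h00 u
          · rw [Function.update_of_ne hux, Function.update_of_ne hwx]
            exact hp u w huw
      · rw [cu j]
        rcases hall j with rfl | rfl | rfl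
        · rw [if_neg (n01 _), if_neg (n02 _)]
          exact hsmall
        · rw [if_pos rfl]
          omega
        · rw [if_neg (n21 _), if_pos rfl]
          omega
    · exfalso
      have h1 := hK2 i
      omega

end Pool.Agent.H32.BE
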